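import Pool.Agent.H44.DU.Targets

set_option autoImplicit false

namespace Pool.Agent.H49.DU.GB

open Pool.Agent.H44.DU

theorem finite_pos (s : Set ℝ) (hs : s.Finite) : ∃ c : ℝ, 0 < c ∧ ∀ x ∈ s, 0 < x → c ≤ x := by
  induction s, hs using Set.Finite.induction_on with
  | empty => exact ⟨1, one_pos, by simp⟩
  | @insert a s _ _ ih =>
    obtain ⟨c, hc, h⟩ := ih
    by_cases ha : 0 < a
    · refine ⟨min a c, lt_min ha hc, ?_⟩
      intro x hx h0
      rcases hx with rfl | hx
      · exact min_le_left _ _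
      · exact (min_le_right _ _).trans (h x hx h0)
    · refine ⟨c, hc, ?_⟩
      intro x hx h0
      rcases hx with rfl | hx
      · exact absurd h0 ha
      · exact h x hx h0

theorem tele (h : T_HT) (n : ℕ) (S : Surf n) (L : ℕ) (t x : ℝ) (r : Side n) (al c : ℝ)
    (ha : 0 < al) (hA : ∀ v : List (Side n), v.length ≤ L + 1 → al ≤ S.A v) :
    ∀ (v : List (Side n)) (r' : Side n), v.length ≤ L → S.Run t (r :: v ++ [r']) x →
      (∀ u l l' w', r :: v ++ [r'] = u ++ l :: l' :: w' → S.sg t l l' (S.g t (u ++ [l]) x) < c) →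
      0 < S.ht t (r :: v) r' x - S.ht t [] r x ∧
        S.ht t (r :: v) r' x - S.ht t [] r x ≤ (v.length + 1 : ℕ) * (c / al) := by
  intro v
  induction v using List.reverseRecOn with
  | nil =>
    intro r' _ hR hs
    have h1 := h n S t x [] r r' (by simpa using hR)
    obtain ⟨e1, e2, -⟩ := h1
    have h2 : S.sg t r r' (S.g t ([] ++ [r]) x) < c := hs [] r r' [] rfl
    have h3 : al ≤ S.A ([] ++ [r]) := hA _ (by simp)
    have h4 : 0 < S.A ([] ++ [r]) := S.A_pos _
    simp only [List.nil_append] at e1 e2 h2 h3 h4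
    rw [e1]
    refine ⟨div_pos e2 h4, ?_⟩
    simp only [List.length_nil, zero_add, Nat.cast_one, one_mul]
    rw [div_le_div_iff₀ h4 ha]
    nlinarith
  | append_singleton v l ih =>
    intro r' hl hR hs
    have e0 : r :: (v ++ [l]) ++ [r'] = (r :: v ++ [l]) ++ [r'] := by simp
    have hR' : S.Run t (r :: v ++ [l] ++ [r']) x := by rw [← e0]; exact hR
    have hR1 : S.Run t (r :: v ++ [l]) x := ((S.run_append t _ _ x).1 hR').1
    have hlen : v.length + 1 ≤ L := by simpa using hl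
    obtain ⟨i1, i2⟩ := ih l (by omega) hR1 (by
      intro u a b w' hw
      refine hs u a b (w' ++ [r']) ?_
      rw [e0, hw]
      simp)
    obtain ⟨e1, e2, -⟩ := h n S t x (r :: v) l r' hR'
    have h2 : S.sg t l r' (S.g t (r :: v ++ [l]) x) < c := by
      refine hs (r :: v) l r' [] ?_
      simp
    have h3 : al ≤ S.A (r :: v ++ [l]) := hA _ (by simp; omega)
    have h4 : 0 < S.A (r :: v ++ [l]) := S.A_pos _
    have e3 : r :: (v ++ [l]) = r :: v ++ [l] := by simp
    rw [e3]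
    have h5 : S.sg t l r' (S.g t (r :: v ++ [l]) x) / S.A (r :: v ++ [l]) ≤ c / al := by
      rw [div_le_div_iff₀ h4 ha]
      nlinarith
    have h6 : 0 < S.sg t l r' (S.g t (r :: v ++ [l]) x) / S.A (r :: v ++ [l]) := div_pos e2 h4
    rw [← e1] at h5 h6
    refine ⟨by linarith, ?_⟩
    have h7 : (((v ++ [l]).length + 1 : ℕ) : ℝ) * (c / al) =
        ((v.length + 1 : ℕ) : ℝ) * (c / al) + c / al := by
      simp only [List.length_append, List.length_singleton]
      push_cast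
      ring
    rw [h7]
    linarith

theorem pt_flat {n : ℕ} (S : Surf n) (t : ℝ) (r : Side n) (y : ℝ) (h : (S.P r).im = (S.Q r).im) :
    (S.pt t r y).im = (S.P r).im := by
  simp [Surf.pt, h]

theorem pf_GB (h : T_HT) : T_GB := by
  intro n S L
  obtain ⟨al, ha, hA⟩ : ∃ al : ℝ, 0 < al ∧
      ∀ v : List (Side n), v.length ≤ L + 1 → al ≤ S.A v := by
    obtain ⟨c, hc, hc'⟩ := finite_pos (S.A '' {v : List (Side n) | v.length ≤ L + 1})
      ((List.finite_length_le (Side n) (L + 1)).image _)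
    exact ⟨c, hc, fun v hv => hc' _ ⟨v, hv, rfl⟩ (S.A_pos v)⟩
  let k : List (Side n) × Side n × Side n → ℝ := fun p =>
    ((S.P p.2.2).im - (S.B (p.2.1 :: p.1)).im) / S.A (p.2.1 :: p.1) - (S.P p.2.1).im
  obtain ⟨c0, hc0, hk⟩ := finite_pos
    (k '' ({v : List (Side n) | v.length ≤ L} ×ˢ (Set.univ : Set (Side n × Side n))))
    (((List.finite_length_le (Side n) L).prod Set.finite_univ).image _)
  have hL : (0 : ℝ) < (L + 1 : ℕ) := by positivity
  refine ⟨al * c0 / (2 * (L + 1 : ℕ)), by positivity, ?_⟩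
  intro t x w r r' hw hR hr hr'
  by_contra hcon
  push Not at hcon
  obtain ⟨h1, h2⟩ := tele h n S L t x r al _ ha hA w r' hw hR hcon
  have h3 : S.ht t (r :: w) r' x - S.ht t [] r x = k (w, r, r') := by
    simp only [Surf.ht, pt_flat S t _ _ hr, pt_flat S t _ _ hr', k]
    simp [Surf.A, Surf.B]
  rw [h3] at h1 h2
  have h4 := hk _ ⟨(w, r, r'), ⟨hw, trivial⟩, rfl⟩ h1
  have h5 : ((w.length + 1 : ℕ) : ℝ) * (al * c0 / (2 * (L + 1 : ℕ)) / al) ≤ c0 / 2 := by
    have e1 : al * c0 / (2 * (L + 1 : ℕ)) / al = (c0 / 2) / (L + 1 : ℕ) := by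
      field_simp
    rw [e1]
    have e2 : ((w.length + 1 : ℕ) : ℝ) ≤ (L + 1 : ℕ) := by
      exact_mod_cast Nat.succ_le_succ hw
    have e3 : (0 : ℝ) ≤ (c0 / 2) / (L + 1 : ℕ) := by positivity
    calc ((w.length + 1 : ℕ) : ℝ) * ((c0 / 2) / (L + 1 : ℕ))
        ≤ (L + 1 : ℕ) * ((c0 / 2) / (L + 1 : ℕ)) := mul_le_mul_of_nonneg_right e2 e3
      _ = c0 / 2 := by field_simp
  linarith

end Pool.Agent.H49.DU.GB
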